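import Pool.Agent.MP_8f9e6e_pr.Jump.P8

/-! A single step inside the window `(1 + o(1)) t_c` takes the density of contractible simplices
from `O(n^(-1/d))` to one. -/

namespace Pool.Agent.Results.MP_8f9e6e_pr.SingleStepJump

open Pool.Agent.MP_8f9e6e_pr

theorem result (d : ℕ) (hd : 2 ≤ d) : ∃ C : ℝ, ∃ ε : ℕ → ℝ,
    Filter.Tendsto ε Filter.atTop (nhds 0) ∧
    Filter.Tendsto (fun n : ℕ => prob {π : Ord n d | ∃ τ < n.choose (d + 1),
      |(τ : ℝ) - ((d + 1) ^ (d + 1) / d ^ d * n : ℝ) ^ (-(1 / d : ℝ)) * n.choose (d + 1)| ≤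
        ε n * (((d + 1) ^ (d + 1) / d ^ d * n : ℝ) ^ (-(1 / d : ℝ)) * n.choose (d + 1)) ∧
      frac π τ ≤ C * (n : ℝ) ^ (-(1 / d : ℝ)) ∧ frac π (τ + 1) = 1})
      Filter.atTop (nhds 1) :=
  J.jump_full d hd

end Pool.Agent.Results.MP_8f9e6e_pr.SingleStepJump
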